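import Pool.Agent.P8H10.ET.StmC

set_option autoImplicit false

open Filter Topology

namespace Pool.Agent.P8H20.ET

open Pool.Agent.P8H10.ET

/-- division with remainder in both coordinates -/
noncomputable def eqv (u v : ℕ) [NeZero u] [NeZero v] :
    (Fin u × Fin v) × (ℤ × ℤ) ≃ ℤ × ℤ :=
  (Equiv.prodProdProdComm (Fin u) (Fin v) ℤ ℤ).trans
    (Equiv.prodCongr ((Equiv.prodComm _ _).trans (Int.divModEquiv u).symm)
      ((Equiv.prodComm _ _).trans (Int.divModEquiv v).symm))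

lemma eqv_apply (u v : ℕ) [NeZero u] [NeZero v] (i : Fin u) (j : Fin v) (a b : ℤ) :
    eqv u v ((i, j), (a, b)) = (a * u + (i : ℕ), b * v + (j : ℕ)) := by
  simp [eqv, Int.divModEquiv, Equiv.prodProdProdComm]

/-- the summand -/
noncomputable def ff (L : PeriodPair) (r : ℕ) (t : ℂ) (p : ℤ × ℤ) : ℂ :=
  (((p.1 : ℂ) * L.ω₁ + (p.2 : ℂ) * L.ω₂ + t) ^ r)⁻¹

lemma siv_neg (L : PeriodPair) (r : ℕ) (heven : Even r) (t : ℂ) :
    L.sumInvPow t r = ∑' p : ℤ × ℤ, ff L r t p := by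
  rw [PeriodPair.sumInvPow, ← (Equiv.neg L.lattice).tsum_eq,
    ← L.latticeEquivProd.symm.toEquiv.tsum_eq]
  refine tsum_congr fun p => ?_
  have h5 : ((L.latticeEquivProd.symm.toEquiv p : L.lattice) : ℂ)
      = (p.1 : ℂ) * L.ω₁ + (p.2 : ℂ) * L.ω₂ := L.latticeEquiv_symm_apply p
  rw [Equiv.neg_apply, NegMemClass.coe_neg, h5,
    show -((p.1 : ℂ) * L.ω₁ + (p.2 : ℂ) * L.ω₂) - t
      = -(((p.1 : ℂ) * L.ω₁ + (p.2 : ℂ) * L.ω₂) + t) by ring, heven.neg_pow, ff]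

lemma ff_summable (L : PeriodPair) (r : ℕ) (hr : 2 < r) : Summable (ff L r 0) := by
  have h3 := (L.hasSum_sumInvPow 0 hr).summable
  have h4 := (L.latticeEquivProd.symm.toEquiv.summable_iff).mpr h3
  refine h4.congr fun p => ?_
  have h5 : ((L.latticeEquivProd.symm.toEquiv p : L.lattice) : ℂ)
      = (p.1 : ℂ) * L.ω₁ + (p.2 : ℂ) * L.ω₂ := L.latticeEquiv_symm_apply p
  rw [Function.comp_apply, h5, ff, sub_zero, add_zero]

lemma siv_zero (L : PeriodPair) (r : ℕ) : L.G r = ∑' p : ℤ × ℤ, ff L r 0 p := by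
  rw [PeriodPair.G, ← L.latticeEquivProd.symm.toEquiv.tsum_eq]
  refine tsum_congr fun p => ?_
  have h5 : ((L.latticeEquivProd.symm.toEquiv p : L.lattice) : ℂ)
      = (p.1 : ℂ) * L.ω₁ + (p.2 : ℂ) * L.ω₂ := L.latticeEquiv_symm_apply p
  rw [h5, ff, add_zero]

lemma term (L L' : PeriodPair) (u v : ℕ) [NeZero u] [NeZero v] (h1 : L'.ω₁ = L.ω₁)
    (h2 : L'.ω₂ = (u / v : ℂ) * L.ω₂) (r : ℕ) (i : Fin u) (j : Fin v) (p : ℤ × ℤ) :
    ff L' r 0 (eqv u v ((i, j), p)) = ((u : ℂ) ^ r)⁻¹ *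
      ff L r (((i : ℕ) : ℂ) * L.ω₁ / u + ((j : ℕ) : ℂ) * L.ω₂ / v) p := by
  have hu' : (u : ℂ) ≠ 0 := by exact_mod_cast (NeZero.ne u)
  have hv' : (v : ℂ) ≠ 0 := by exact_mod_cast (NeZero.ne v)
  obtain ⟨a, b⟩ := p
  rw [eqv_apply, ff, ff, ← mul_inv, ← mul_pow]
  have key : (((a * (u : ℤ) + ((i : ℕ) : ℤ) : ℤ) : ℂ) * L'.ω₁ +
      ((b * (v : ℤ) + ((j : ℕ) : ℤ) : ℤ) : ℂ) * L'.ω₂ + 0)
      = (u : ℂ) * ((a : ℂ) * L.ω₁ + (b : ℂ) * L.ω₂ +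
        (((i : ℕ) : ℂ) * L.ω₁ / u + ((j : ℕ) : ℂ) * L.ω₂ / v)) := by
    rw [h1, h2]
    push_cast
    field_simp
    ring
  exact congrArg (fun z : ℂ => (z ^ r)⁻¹) key

lemma Gsum (L' : PeriodPair) (u v : ℕ) [NeZero u] [NeZero v] (r : ℕ) (hr : 2 < r) :
    L'.G r = ∑ i : Fin u, ∑ j : Fin v, ∑' p : ℤ × ℤ, ff L' r 0 (eqv u v ((i, j), p)) := by
  have hS2 : Summable (fun q => ff L' r 0 (eqv u v q)) :=
    (ff_summable L' r hr).comp_injective (eqv u v).injective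
  have h3 : ∑' q, ff L' r 0 (eqv u v q)
      = ∑' ij : Fin u × Fin v, ∑' p : ℤ × ℤ, ff L' r 0 (eqv u v (ij, p)) := hS2.tsum_prod
  rw [siv_zero, ← (eqv u v).tsum_eq (ff L' r 0), h3, tsum_fintype, Fintype.sum_prod_type]

lemma tterm (L L' : PeriodPair) (u v : ℕ) [NeZero u] [NeZero v] (h1 : L'.ω₁ = L.ω₁)
    (h2 : L'.ω₂ = (u / v : ℂ) * L.ω₂) (r : ℕ) (heven : Even r) (i : Fin u) (j : Fin v) :
    ∑' p : ℤ × ℤ, ff L' r 0 (eqv u v ((i, j), p)) = ((u : ℂ) ^ r)⁻¹ *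
      L.sumInvPow (((i : ℕ) : ℂ) * L.ω₁ / u + ((j : ℕ) : ℂ) * L.ω₂ / v) r := by
  rw [siv_neg L r heven, ← tsum_mul_left]
  exact tsum_congr fun p => term L L' u v h1 h2 r i j p

theorem sum : S_SUM := by
  intro L L' u v hu hv h1 h2 r hr heven
  have : NeZero u := ⟨hu.ne'⟩
  have : NeZero v := ⟨hv.ne'⟩
  have hu' : (u : ℂ) ^ r ≠ 0 := pow_ne_zero _ (by exact_mod_cast hu.ne')
  rw [Gsum L' u v r hr, Finset.mul_sum,
    Finset.sum_range (fun i => ∑ j ∈ Finset.range v,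
      L.sumInvPow ((i : ℂ) * L.ω₁ / u + (j : ℂ) * L.ω₂ / v) r)]
  refine Finset.sum_congr rfl fun i _ => ?_
  rw [Finset.mul_sum, Finset.sum_range (fun j =>
      L.sumInvPow (((i : ℕ) : ℂ) * L.ω₁ / u + (j : ℂ) * L.ω₂ / v) r)]
  refine Finset.sum_congr rfl fun j _ => ?_
  rw [tterm L L' u v h1 h2 r heven i j, ← mul_assoc, mul_inv_cancel₀ hu', one_mul]

end Pool.Agent.P8H20.ET
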