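import Pool.Agent.P8H10.ET.StmC
import Pool.Agent.H667R3.W4

set_option autoImplicit false

open Filter Topology
open scoped PeriodPair

namespace Pool.Agent.P8H20.ET

open Pool.Agent.P8H10.ET

lemma compl_open (L : PeriodPair) {z : ℂ} (hz : z ∉ L.lattice) :
    ∀ᶠ w in 𝓝 z, w ∉ L.lattice :=
  L.isClosed_lattice.isOpen_compl.mem_nhds hz

lemma hd_wp (L : PeriodPair) {z : ℂ} (hz : z ∉ L.lattice) :
    HasDerivAt ℘[L] (℘'[L] z) z := H667R3.hasDerivAt_weierstrassP L hz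

lemma deriv_wp' (L : PeriodPair) {z : ℂ} (hz : z ∉ L.lattice) :
    deriv ℘'[L] z = 6 * ℘[L] z ^ 2 - L.g₂ / 2 := by
  have hA : AnalyticAt ℂ ℘'[L] z := L.analyticOnNhd_derivWeierstrassP z hz
  have hP : AnalyticAt ℂ ℘[L] z := L.analyticOnNhd_weierstrassP z hz
  have c1 : ContinuousAt (deriv ℘'[L]) z := hA.deriv.continuousAt
  have c2 : ContinuousAt (fun w => 6 * ℘[L] w ^ 2 - L.g₂ / 2) z := by
    have := hP.continuousAt
    fun_prop
  have hev : ∀ᶠ w in 𝓝[≠] z, deriv ℘'[L] w = 6 * ℘[L] w ^ 2 - L.g₂ / 2 := by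
    have h1 : ∀ᶠ w in 𝓝 (2 * z), w ∈ (↑L.lattice \ {2 * z} : Set ℂ)ᶜ :=
      L.compl_lattice_sdiff_singleton_mem_nhds (2 * z)
    have h2 : Tendsto (fun w : ℂ => 2 * w) (𝓝 z) (𝓝 (2 * z)) :=
      (continuous_const.mul continuous_id).tendsto z
    have h3 := (h2.eventually h1).filter_mono (nhdsWithin_le_nhds (s := {z}ᶜ))
    filter_upwards [h3, self_mem_nhdsWithin] with w hw hne
    have hne' : w ≠ z := hne
    refine (H667R3.hasDerivAt_wp' L ?_).deriv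
    intro hmem
    apply hw
    refine ⟨hmem, fun h => hne' ?_⟩
    have h4 : 2 * w = 2 * z := h
    exact mul_left_cancel₀ two_ne_zero h4
  have t1 : Tendsto (deriv ℘'[L]) (𝓝[≠] z) (𝓝 (deriv ℘'[L] z)) :=
    c1.tendsto.mono_left nhdsWithin_le_nhds
  have t2 : Tendsto (fun w => 6 * ℘[L] w ^ 2 - L.g₂ / 2) (𝓝[≠] z)
      (𝓝 (6 * ℘[L] z ^ 2 - L.g₂ / 2)) := c2.tendsto.mono_left nhdsWithin_le_nhds
  exact tendsto_nhds_unique (t1.congr' hev) t2

theorem wp : S_WP := by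
  intro L t ht
  have e4 : deriv ℘'[L] t = 6 * L.sumInvPow t 4 := by
    have h := L.deriv_derivWeierstrassPExcept_self t
    rwa [L.derivWeierstrassPExcept_of_notMem t ht] at h
  have e6 : iteratedDeriv 3 ℘'[L] t = 120 * L.sumInvPow t 6 := by
    have h := L.iteratedDeriv_derivWeierstrassPExcept_self t (n := 3)
    rw [L.derivWeierstrassPExcept_of_notMem t ht] at h
    rw [h]
    norm_num [Nat.factorial]
  have d1 : ∀ z, z ∉ L.lattice → deriv ℘'[L] z = 6 * ℘[L] z ^ 2 - L.g₂ / 2 :=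
    fun z hz => deriv_wp' L hz
  have d2 : ∀ z, z ∉ L.lattice → deriv (deriv ℘'[L]) z = 12 * ℘[L] z * ℘'[L] z := by
    intro z hz
    have hev : deriv ℘'[L] =ᶠ[𝓝 z] fun w => 6 * ℘[L] w ^ 2 - L.g₂ / 2 :=
      (compl_open L hz).mono fun w hw => d1 w hw
    rw [hev.deriv_eq]
    have h := (((hd_wp L hz).fun_pow 2).const_mul 6).sub_const (L.g₂ / 2)
    rw [h.deriv]
    push_cast
    ring
  have d3 : deriv (deriv (deriv ℘'[L])) t
      = 12 * (℘'[L] t * ℘'[L] t) + 12 * ℘[L] t * (6 * ℘[L] t ^ 2 - L.g₂ / 2) := by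
    have hev : deriv (deriv ℘'[L]) =ᶠ[𝓝 t] fun w => 12 * ℘[L] w * ℘'[L] w :=
      (compl_open L ht).mono fun w hw => d2 w hw
    rw [hev.deriv_eq]
    have hA : DifferentiableAt ℂ ℘'[L] t := (L.analyticOnNhd_derivWeierstrassP t ht).differentiableAt
    have h := ((hd_wp L ht).const_mul 12).fun_mul hA.hasDerivAt
    rw [h.deriv, d1 t ht]
    ring
  have i3 : iteratedDeriv 3 ℘'[L] t = deriv (deriv (deriv ℘'[L])) t := by
    rw [iteratedDeriv_succ, iteratedDeriv_succ, iteratedDeriv_one]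
  have hsq := L.derivWeierstrassP_sq t ht
  constructor
  · have h1 : 6 * L.sumInvPow t 4 = 6 * ℘[L] t ^ 2 - L.g₂ / 2 := by rw [← e4, d1 t ht]
    linear_combination h1 / 6
  · have h1 : 120 * L.sumInvPow t 6
        = 12 * (℘'[L] t * ℘'[L] t) + 12 * ℘[L] t * (6 * ℘[L] t ^ 2 - L.g₂ / 2) := by
      rw [← e6, i3, d3]
    linear_combination h1 / 120 + hsq / 10

end Pool.Agent.P8H20.ET
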